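import Mathlib

set_option linter.unusedSimpArgs false

namespace Pool.Agent.LocHopf

open scoped TensorProduct

universe u v

/-- The defining relations of the algebra. -/
structure Rels {R : Type*} [Ring R] (a b z x y : R) : Prop where
  ba : b * a = a * b
  za : z * a = a * z
  zb : z * b = b * z
  xz : x * z = z * x
  yz : y * z = z * y
  xa : x * a = a * x + z
  ya : y * a = a * y + x
  xb : x * b = b * x + a * z
  yb : y * b = b * y + a * x + z
  yx : y * x = x * y + z * x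
  zz : z * z = 0
  a4 : a ^ 4 = 0
  b4 : b ^ 4 = 0
  x4 : x ^ 4 = 0
  y8 : y ^ 8 = 0

/-- In an algebra over a field of characteristic two every element is its own negative. -/
lemma dbl (k : Type*) [Field k] [CharP k 2] {M : Type*} [AddCommGroup M] [Module k M] (r : M) :
    r + r = 0 := by
  rw [← two_smul k, CharTwo.two_eq_zero, zero_smul]

lemma pow_four_eq {R : Type*} [Ring R] (r : R) : r ^ 4 = (r * r) * (r * r) := by
  simp [pow_succ, mul_assoc]

lemma pow_eight_eq {R : Type*} [Ring R] (r : R) :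
    r ^ 8 = ((r * r) * (r * r)) * ((r * r) * (r * r)) := by
  simp [pow_succ, mul_assoc]

section consequences

variable {R : Type*} [Ring R] {a b z x y : R}

lemma Rels.ba' (h : Rels a b z x y) (w : R) : b * (a * w) = a * (b * w) := by
  rw [← mul_assoc, h.ba, mul_assoc]
lemma Rels.za' (h : Rels a b z x y) (w : R) : z * (a * w) = a * (z * w) := by
  rw [← mul_assoc, h.za, mul_assoc]
lemma Rels.zb' (h : Rels a b z x y) (w : R) : z * (b * w) = b * (z * w) := by
  rw [← mul_assoc, h.zb, mul_assoc]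
lemma Rels.xz' (h : Rels a b z x y) (w : R) : x * (z * w) = z * (x * w) := by
  rw [← mul_assoc, h.xz, mul_assoc]
lemma Rels.yz' (h : Rels a b z x y) (w : R) : y * (z * w) = z * (y * w) := by
  rw [← mul_assoc, h.yz, mul_assoc]
lemma Rels.xa' (h : Rels a b z x y) (w : R) : x * (a * w) = a * (x * w) + z * w := by
  rw [← mul_assoc, h.xa, add_mul, mul_assoc]
lemma Rels.ya' (h : Rels a b z x y) (w : R) : y * (a * w) = a * (y * w) + x * w := by
  rw [← mul_assoc, h.ya, add_mul, mul_assoc]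
lemma Rels.xb' (h : Rels a b z x y) (w : R) : x * (b * w) = b * (x * w) + a * (z * w) := by
  rw [← mul_assoc, h.xb, add_mul, mul_assoc, mul_assoc]
lemma Rels.yb' (h : Rels a b z x y) (w : R) :
    y * (b * w) = b * (y * w) + a * (x * w) + z * w := by
  rw [← mul_assoc, h.yb, add_mul, add_mul, mul_assoc, mul_assoc]
lemma Rels.yx' (h : Rels a b z x y) (w : R) : y * (x * w) = x * (y * w) + z * (x * w) := by
  rw [← mul_assoc, h.yx, add_mul, mul_assoc, mul_assoc]
lemma Rels.zz' (h : Rels a b z x y) (w : R) : z * (z * w) = 0 := by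
  rw [← mul_assoc, h.zz, zero_mul]
lemma Rels.aaaa (h : Rels a b z x y) : a * (a * (a * a)) = 0 := by
  have := h.a4; simpa [pow_succ, mul_assoc] using this
lemma Rels.bbbb (h : Rels a b z x y) : b * (b * (b * b)) = 0 := by
  have := h.b4; simpa [pow_succ, mul_assoc] using this
lemma Rels.xxxx (h : Rels a b z x y) : x * (x * (x * x)) = 0 := by
  have := h.x4; simpa [pow_succ, mul_assoc] using this
lemma Rels.yyyy (h : Rels a b z x y) :
    y * (y * (y * (y * (y * (y * (y * y)))))) = 0 := by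
  have := h.y8; simpa [pow_succ, mul_assoc] using this

end consequences

/-- The abstract comultiplication: two commuting systems give a third one. -/
theorem Rels.tensor (k : Type*) [Field k] [CharP k 2] {A : Type*} [Ring A] [Algebra k A]
    {a b z x y : A} (h : Rels a b z x y) :
    Rels (R := A ⊗[k] A) (a ⊗ₜ 1 + 1 ⊗ₜ a) (b ⊗ₜ 1 + 1 ⊗ₜ b + a ⊗ₜ a) (z ⊗ₜ 1 + 1 ⊗ₜ z)
      (x ⊗ₜ 1 + 1 ⊗ₜ x + a ⊗ₜ z) (y ⊗ₜ 1 + 1 ⊗ₜ y + a ⊗ₜ x + b ⊗ₜ z) := by
  have d : ∀ w : A ⊗[k] A, w + w = 0 := dbl k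
  have s : ∀ w : A ⊗[k] A, (2 : ℤ) • w = 0 := fun w => by rw [two_zsmul, d]
  have s2 : ∀ w : A ⊗[k] A, (-2 : ℤ) • w = 0 := fun w => by rw [neg_smul, s, neg_zero]
  have s4 : ∀ w : A ⊗[k] A, (4 : ℤ) • w = 0 := fun w => by
    rw [show (4 : ℤ) = 2 * 2 by norm_num, mul_smul, s]
  have s8 : ∀ w : A ⊗[k] A, (8 : ℤ) • w = 0 := fun w => by
    rw [show (8 : ℤ) = 2 * 4 by norm_num, mul_smul, s]
  constructor
  · simp only [mul_add, add_mul, Algebra.TensorProduct.tmul_mul_tmul, one_mul, mul_one, h.ba]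
    abel
  · simp only [mul_add, add_mul, Algebra.TensorProduct.tmul_mul_tmul, one_mul, mul_one, h.za]
    abel
  · simp only [mul_add, add_mul, Algebra.TensorProduct.tmul_mul_tmul, one_mul, mul_one, h.zb, h.za]
    abel
  · simp only [mul_add, add_mul, Algebra.TensorProduct.tmul_mul_tmul, one_mul, mul_one, h.xz,
      h.za, h.zz]
    abel
  · simp only [mul_add, add_mul, Algebra.TensorProduct.tmul_mul_tmul, one_mul, mul_one, h.xz,
      h.za, h.zz, h.yz, h.zb]
    abel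
  · simp only [mul_add, add_mul, Algebra.TensorProduct.tmul_mul_tmul, one_mul, mul_one, h.za,
      h.xa, TensorProduct.add_tmul, TensorProduct.tmul_add]
    abel
  · simp only [mul_add, add_mul, Algebra.TensorProduct.tmul_mul_tmul, one_mul, mul_one,
      h.za, h.xa, h.ya, h.ba, TensorProduct.add_tmul, TensorProduct.tmul_add]
    abel
  · simp only [mul_add, add_mul, Algebra.TensorProduct.tmul_mul_tmul, one_mul, mul_one,
      h.za, h.xa, h.ya, h.ba, h.xb, h.zb, TensorProduct.add_tmul, TensorProduct.tmul_add]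
    abel
  · rw [← sub_eq_zero]
    simp only [mul_add, add_mul, Algebra.TensorProduct.tmul_mul_tmul, one_mul, mul_one, mul_assoc,
      h.za, h.xa, h.ya, h.ba, h.xb, h.yb, h.zb, h.ba', h.za', h.xa', h.xz, h.zz, h.xz', h.zz',
      TensorProduct.add_tmul, TensorProduct.tmul_add]
    abel_nf
  · rw [← sub_eq_zero]
    simp only [mul_add, add_mul, Algebra.TensorProduct.tmul_mul_tmul, one_mul, mul_one, mul_assoc,
      h.za, h.xa, h.ya, h.ba, h.xb, h.yb, h.zb, h.ba', h.za', h.xa', h.xz, h.zz, h.xz', h.zz',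
      h.yx, h.yz, h.yx', h.yz', mul_zero, zero_mul, TensorProduct.tmul_zero,
      TensorProduct.zero_tmul, TensorProduct.add_tmul, TensorProduct.tmul_add]
    abel_nf
    simp only [s, s2, add_zero, zero_add]
  · simp only [mul_add, add_mul, Algebra.TensorProduct.tmul_mul_tmul, one_mul, mul_one, mul_assoc,
      h.zz, mul_zero, zero_mul, TensorProduct.tmul_zero,
      TensorProduct.zero_tmul, zero_add, add_zero]
    exact d _
  · have e1 : (a ⊗ₜ 1 + 1 ⊗ₜ a : A ⊗[k] A) * (a ⊗ₜ 1 + 1 ⊗ₜ a) = (a * a) ⊗ₜ 1 + 1 ⊗ₜ (a * a) := by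
      rw [← sub_eq_zero]
      simp only [mul_add, add_mul, Algebra.TensorProduct.tmul_mul_tmul, one_mul, mul_one]
      abel_nf
      simp only [s, s2, add_zero, zero_add]
    rw [pow_four_eq, e1]
    simp only [mul_add, add_mul, Algebra.TensorProduct.tmul_mul_tmul, one_mul, mul_one, mul_assoc,
      h.aaaa, TensorProduct.tmul_zero, TensorProduct.zero_tmul, zero_add, add_zero]
    exact d _
  · have e1 : (b ⊗ₜ 1 + 1 ⊗ₜ b + a ⊗ₜ a : A ⊗[k] A) * (b ⊗ₜ 1 + 1 ⊗ₜ b + a ⊗ₜ a)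
        = (b * b) ⊗ₜ 1 + 1 ⊗ₜ (b * b) + (a * a) ⊗ₜ (a * a) := by
      rw [← sub_eq_zero]
      simp only [mul_add, add_mul, Algebra.TensorProduct.tmul_mul_tmul, one_mul, mul_one, h.ba]
      abel_nf
      simp only [s, s2, add_zero, zero_add]
    rw [pow_four_eq, e1]
    simp only [mul_add, add_mul, Algebra.TensorProduct.tmul_mul_tmul, one_mul, mul_one, mul_assoc,
      h.aaaa, h.bbbb, h.ba, h.ba', TensorProduct.tmul_zero, TensorProduct.zero_tmul, zero_add,
      add_zero]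
    abel_nf
    simp only [s, s2, add_zero, zero_add]
  · have e1 : (x ⊗ₜ 1 + 1 ⊗ₜ x + a ⊗ₜ z : A ⊗[k] A) * (x ⊗ₜ 1 + 1 ⊗ₜ x + a ⊗ₜ z)
        = (x * x) ⊗ₜ 1 + 1 ⊗ₜ (x * x) + z ⊗ₜ z := by
      rw [← sub_eq_zero]
      simp only [mul_add, add_mul, Algebra.TensorProduct.tmul_mul_tmul, one_mul, mul_one, h.xz,
        h.xa, h.zz, TensorProduct.tmul_zero, TensorProduct.add_tmul]
      abel_nf
      simp only [s, s2, add_zero, zero_add]
    rw [pow_four_eq, e1]
    simp only [mul_add, add_mul, Algebra.TensorProduct.tmul_mul_tmul, one_mul, mul_one, mul_assoc,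
      h.xxxx, h.xz, h.xz', h.zz, TensorProduct.tmul_zero, TensorProduct.zero_tmul, zero_add,
      add_zero]
    abel_nf
    simp only [s, s2, add_zero, zero_add]
  · have e1 : (y ⊗ₜ 1 + 1 ⊗ₜ y + a ⊗ₜ x + b ⊗ₜ z : A ⊗[k] A) *
          (y ⊗ₜ 1 + 1 ⊗ₜ y + a ⊗ₜ x + b ⊗ₜ z)
        = (y * y) ⊗ₜ 1 + 1 ⊗ₜ (y * y) + x ⊗ₜ x + a ⊗ₜ (z * x) + (a * x) ⊗ₜ z + z ⊗ₜ z +
          (a * a) ⊗ₜ (x * x) := by
      rw [← sub_eq_zero]
      simp only [mul_add, add_mul, Algebra.TensorProduct.tmul_mul_tmul, one_mul, mul_one, h.xz,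
        h.ya, h.yb, h.yz, h.yx, h.ba,
        h.xa, h.zz, TensorProduct.tmul_zero, TensorProduct.add_tmul, TensorProduct.tmul_add]
      abel_nf
      simp only [s, s2, add_zero, zero_add]
    have e2 : ((y * y) ⊗ₜ 1 + 1 ⊗ₜ (y * y) + x ⊗ₜ x + a ⊗ₜ (z * x) + (a * x) ⊗ₜ z + z ⊗ₜ z +
          (a * a) ⊗ₜ (x * x) : A ⊗[k] A) *
          ((y * y) ⊗ₜ 1 + 1 ⊗ₜ (y * y) + x ⊗ₜ x + a ⊗ₜ (z * x) + (a * x) ⊗ₜ z + z ⊗ₜ z +
          (a * a) ⊗ₜ (x * x)) =
          (y * (y * (y * y))) ⊗ₜ 1 + 1 ⊗ₜ (y * (y * (y * y))) + (x * x) ⊗ₜ (x * x)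
          + (z * (x * x)) ⊗ₜ z + z ⊗ₜ (z * (x * x)) := by
      rw [← sub_eq_zero]
      simp only [mul_add, add_mul, Algebra.TensorProduct.tmul_mul_tmul, one_mul, mul_one, h.xz,
        h.ya, h.yb, h.yz, h.yx, h.ba, h.ya', h.yb', h.yz', h.yx', h.ba', h.xz', h.xa', h.zz',
        h.za, h.za', h.xxxx, h.aaaa, mul_zero, zero_mul, mul_assoc,
        h.xa, h.zz, TensorProduct.tmul_zero, TensorProduct.zero_tmul,
        TensorProduct.add_tmul, TensorProduct.tmul_add]
      abel_nf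
      simp only [s, s2, s4, add_zero, zero_add]
    have e3 : ((y * (y * (y * y))) ⊗ₜ 1 + 1 ⊗ₜ (y * (y * (y * y))) + (x * x) ⊗ₜ (x * x)
          + (z * (x * x)) ⊗ₜ z + z ⊗ₜ (z * (x * x)) : A ⊗[k] A) *
          ((y * (y * (y * y))) ⊗ₜ 1 + 1 ⊗ₜ (y * (y * (y * y))) + (x * x) ⊗ₜ (x * x)
          + (z * (x * x)) ⊗ₜ z + z ⊗ₜ (z * (x * x))) = 0 := by
      simp only [mul_add, add_mul, Algebra.TensorProduct.tmul_mul_tmul, one_mul, mul_one, h.xz,
        h.ya, h.yb, h.yz, h.yx, h.ba, h.ya', h.yb', h.yz', h.yx', h.ba', h.xz', h.xa', h.zz',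
        h.za, h.za', h.xxxx, h.yyyy, h.aaaa, mul_zero, zero_mul, mul_assoc,
        h.xa, h.zz, TensorProduct.tmul_zero, TensorProduct.zero_tmul,
        TensorProduct.add_tmul, TensorProduct.tmul_add]
      abel_nf
      simp only [s, s2, s4, s8, add_zero, zero_add]
    rw [pow_eight_eq, e1, e2, e3]

open MulOpposite in
/-- The abstract antipode. -/
theorem Rels.opp (k : Type*) [Field k] [CharP k 2] {A : Type*} [Ring A] [Algebra k A]
    {a b z x y : A} (h : Rels a b z x y) :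
    Rels (R := Aᵐᵒᵖ) (op a) (op (b + a * a)) (op z) (op (x + a * z))
      (op (y + a * x + b * z + a * (a * z))) := by
  have d : ∀ w : A, w + w = 0 := dbl k
  have s : ∀ w : A, (2 : ℤ) • w = 0 := fun w => by rw [two_zsmul, d]
  have s2 : ∀ w : A, (-2 : ℤ) • w = 0 := fun w => by rw [neg_smul, s, neg_zero]
  have s4 : ∀ w : A, (4 : ℤ) • w = 0 := fun w => by
    rw [show (4 : ℤ) = 2 * 2 by norm_num, mul_smul, s]
  have s3 : ∀ w : A, (3 : ℤ) • w = w := fun w => by
    rw [show (3 : ℤ) = 2 + 1 by norm_num, add_smul, s, one_smul, zero_add]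
  have s5 : ∀ w : A, (-4 : ℤ) • w = 0 := fun w => by rw [neg_smul, s4, neg_zero]
  have s6 : ∀ w : A, (6 : ℤ) • w = 0 := fun w => by
    rw [show (6 : ℤ) = 2 * 3 by norm_num, mul_smul, s]
  have s8 : ∀ w : A, (8 : ℤ) • w = 0 := fun w => by
    rw [show (8 : ℤ) = 2 * 4 by norm_num, mul_smul, s]
  have s16 : ∀ w : A, (16 : ℤ) • w = 0 := fun w => by
    rw [show (16 : ℤ) = 2 * 8 by norm_num, mul_smul, s]
  constructor <;> apply unop_injective <;>
    simp only [unop_mul, unop_add, unop_op, unop_pow, unop_zero]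
  · rw [← sub_eq_zero]
    simp only [mul_add, add_mul, mul_assoc, h.ba]
    abel_nf
  · rw [← sub_eq_zero]
    simp only [mul_add, add_mul, mul_assoc, h.za]
    abel_nf
  · rw [← sub_eq_zero]
    simp only [mul_add, add_mul, mul_assoc, h.za, h.zb, h.za']
    abel_nf
  · rw [← sub_eq_zero]
    simp only [mul_add, add_mul, mul_assoc, h.za, h.zb, h.za', h.xz, h.zz, mul_zero]
    abel_nf
  · rw [← sub_eq_zero]
    simp only [mul_add, add_mul, mul_assoc, h.za, h.zb, h.za', h.zb', h.xz, h.yz, h.zz, mul_zero]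
    abel_nf
  · rw [← sub_eq_zero]
    simp only [mul_add, add_mul, mul_assoc, h.za, h.zb, h.za', h.xa, h.xz, h.zz, mul_zero]
    abel_nf
    try simp only [s, s2, s4, s5, add_zero, zero_add]
  · rw [← sub_eq_zero]
    simp only [mul_add, add_mul, mul_assoc, h.za, h.zb, h.za', h.xa, h.ya, h.xz, h.zz, h.ba, h.ba',
      mul_zero]
    abel_nf
    try simp only [s, s2, s4, s5, add_zero, zero_add]
  · rw [← sub_eq_zero]
    simp only [mul_add, add_mul, mul_assoc, h.za, h.zb, h.za', h.xa, h.ya, h.xz, h.zz, h.ba, h.ba',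
      h.xb, h.zb', h.xa', mul_zero]
    abel_nf
    try simp only [s, s2, s4, s5, add_zero, zero_add]
  · rw [← sub_eq_zero]
    simp only [mul_add, add_mul, mul_assoc, h.za, h.zb, h.za', h.xa, h.ya, h.xz, h.zz, h.ba, h.ba',
      h.xb, h.yb, h.yb', h.ya', h.zb', h.xa', h.xz', h.xb', mul_zero]
    abel_nf
    try simp only [s, s2, s4, s5, add_zero, zero_add]
  · rw [← sub_eq_zero]
    simp only [mul_add, add_mul, mul_assoc, h.za, h.zb, h.za', h.xa, h.ya, h.xz, h.zz, h.ba, h.ba',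
      h.xb, h.yb, h.yb', h.ya', h.zb', h.xa', h.xz', h.xb', h.yx, h.yz, h.yz', h.zz', mul_zero]
    abel_nf
    try simp only [s, s2, s4, s5, add_zero, zero_add]
  · exact h.zz
  · exact h.a4
  · have e1 : (b + a * a) * (b + a * a) = b * b + a * (a * (a * a)) := by
      rw [← sub_eq_zero]
      simp only [mul_add, add_mul, mul_assoc, h.ba, h.ba']
      abel_nf
      simp only [s, s2, s4, add_zero, zero_add]
    rw [pow_four_eq, e1, h.aaaa, add_zero, ← pow_four_eq, h.b4]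
  · have e1 : (x + a * z) * (x + a * z) = x * x := by
      rw [← sub_eq_zero]
      simp only [mul_add, add_mul, mul_assoc, h.za, h.za', h.xa, h.xa', h.xz, h.zz, mul_zero]
      abel_nf
      simp only [s, s2, s4, add_zero, zero_add]
    rw [pow_four_eq, e1, ← pow_four_eq, h.x4]
  · have e1 : (y + a * x + b * z + a * (a * z)) * (y + a * x + b * z + a * (a * z))
        = y * y + x * x + a * (a * (x * x)) + a * (z * x) := by
      rw [← sub_eq_zero]
      simp only [mul_add, add_mul, mul_assoc, h.za, h.zb, h.za', h.xa, h.ya, h.xz, h.zz, h.ba,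
        h.ba', h.xb, h.yb, h.yb', h.ya', h.zb', h.xa', h.xz', h.xb', h.yx, h.yz, h.yz', h.zz',
        mul_zero]
      abel_nf
      simp only [s, s2, s4, s3, add_zero, zero_add]
    have e2 : (y * y + x * x + a * (a * (x * x)) + a * (z * x)) *
          (y * y + x * x + a * (a * (x * x)) + a * (z * x)) = (y * y) * (y * y) := by
      rw [← sub_eq_zero]
      simp only [mul_add, add_mul, mul_assoc, h.za, h.zb, h.za', h.xa, h.ya, h.xz, h.zz, h.ba,
        h.ba', h.xb, h.yb, h.yb', h.ya', h.zb', h.xa', h.xz', h.xb', h.yx, h.yx', h.yz, h.yz',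
        h.zz', h.xxxx, mul_zero]
      abel_nf
      simp only [s, s2, s4, s3, s6, s8, s16, add_zero, zero_add]
    rw [pow_eight_eq, e1, e2, ← pow_eight_eq, h.y8]

end Pool.Agent.LocHopf
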