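import Pool.Agent.LocHopf.Model

set_option linter.unusedSimpArgs false

namespace Pool.Agent.LocHopf

universe u

/-- The integral is a commutator with `y`. -/
lemma Rels.key (k : Type*) [Field k] [CharP k 2] {A : Type*} [Ring A] [Algebra k A]
    {a b z x y : A} (h : Rels a b z x y) (w : A) (hw : y * w = 0) :
    y * (a * (a * (a * (b * (b * (b * (x * (x * (x * w)))))))) +
      a * (b * (b * (b * (x * (x * (x * w)))))) +
      a * (a * (a * (b * (x * (x * (x * w)))))) +
      a * (b * (x * (x * (x * w))))) =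
    a * (a * (a * (b * (b * (b * (z * (x * (x * (x * w))))))))) := by
  have d : ∀ w : A, w + w = 0 := dbl k
  have s : ∀ w : A, (2 : ℤ) • w = 0 := fun w => by rw [two_zsmul, d]
  have s2 : ∀ w : A, (-2 : ℤ) • w = 0 := fun w => by rw [neg_smul, s, neg_zero]
  have s4 : ∀ w : A, (4 : ℤ) • w = 0 := fun w => by
    rw [show (4 : ℤ) = 2 * 2 by norm_num, mul_smul, s]
  have s6 : ∀ w : A, (6 : ℤ) • w = 0 := fun w => by
    rw [show (6 : ℤ) = 2 * 3 by norm_num, mul_smul, s]
  have s12 : ∀ w : A, (12 : ℤ) • w = 0 := fun w => by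
    rw [show (12 : ℤ) = 2 * 6 by norm_num, mul_smul, s]
  have x4 : ∀ w : A, x * (x * (x * (x * w))) = 0 := fun w => by
    have : x * (x * (x * (x * w))) = (x * (x * (x * x))) * w := by simp only [mul_assoc]
    rw [this, h.xxxx, zero_mul]
  have a4 : ∀ w : A, a * (a * (a * (a * w))) = 0 := fun w => by
    have : a * (a * (a * (a * w))) = (a * (a * (a * a))) * w := by simp only [mul_assoc]
    rw [this, h.aaaa, zero_mul]
  rw [← sub_eq_zero]
  simp only [mul_add, add_mul, h.ba', h.za', h.zb', h.xa', h.ya', h.xb', h.yb', h.yx', h.xz',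
    h.yz', h.zz', hw, x4, a4, mul_zero, add_zero, zero_add]
  abel_nf
  simp only [s, s2, s4, s6, s12, add_zero, zero_add]

/-- A trace form on `H` kills the integral. -/
theorem trace_Lam (k : Type u) [Field k] [CharP k 2] (lam : H k →ₗ[k] k)
    (h : ∀ p q, lam (p * q) = lam (q * p)) : lam (Lam k) = 0 := by
  have hr := gen_rels k
  have hw : gen k .y * gen k .y ^ 7 = 0 := by rw [← pow_succ']; exact hr.y8
  have hw' : gen k .y ^ 7 * gen k .y = 0 := by rw [← pow_succ]; exact hr.y8
  have key := hr.key k (gen k .y ^ 7) hw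
  have e : Lam k = gen k .a * (gen k .a * (gen k .a * (gen k .b * (gen k .b * (gen k .b *
      (gen k .z * (gen k .x * (gen k .x * (gen k .x * gen k .y ^ 7))))))))) := by
    rw [Lam, mon]
    simp only [pow_succ (gen k Gen.a), pow_succ (gen k Gen.b), pow_succ (gen k Gen.z),
      pow_succ (gen k Gen.x), pow_zero, one_mul, mul_assoc]
  rw [e, ← key, h]
  simp only [add_mul, mul_assoc, hw', mul_zero, add_zero, map_zero]

end Pool.Agent.LocHopf
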