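import Pool.Agent.LocHopf.Hopf

namespace Pool.Agent.LocHopf

universe u

section fil

variable (k : Type u) [Field k]

/-- Ordered monomials. -/
noncomputable def mon (l m i j r : ℕ) : H k :=
  gen k .a ^ l * (gen k .b ^ m * (gen k .z ^ i * (gen k .x ^ j * gen k .y ^ r)))

/-- Weight of an ordered monomial. -/
def wt (l m i j r : ℕ) : ℕ := l + 2 * m + 3 * i + 2 * j + r

/-- Filtration by weight. -/
noncomputable def Fil (n : ℕ) : Submodule k (H k) :=
  Submodule.span k {w | ∃ l m i j r, n ≤ wt l m i j r ∧ w = mon k l m i j r}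

lemma mon_mem {n l m i j r : ℕ} (h : n ≤ wt l m i j r) : mon k l m i j r ∈ Fil k n :=
  Submodule.subset_span ⟨l, m, i, j, r, h, rfl⟩

lemma Fil_anti {n n' : ℕ} (h : n ≤ n') : Fil k n' ≤ Fil k n := by
  apply Submodule.span_mono
  rintro w ⟨l, m, i, j, r, hw, rfl⟩
  exact ⟨l, m, i, j, r, h.trans hw, rfl⟩

/-- `g` raises the filtration by `d`. -/
def Raises (g : H k) (d : ℕ) : Prop := ∀ n, ∀ w ∈ Fil k n, g * w ∈ Fil k (n + d)

lemma raises_of (g : H k) (d : ℕ)
    (h : ∀ l m i j r, g * mon k l m i j r ∈ Fil k (wt l m i j r + d)) : Raises k g d := by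
  intro n w hw
  induction hw using Submodule.span_induction with
  | mem w hw =>
    obtain ⟨l, m, i, j, r, hn, rfl⟩ := hw
    exact Fil_anti k (by omega) (h l m i j r)
  | zero => simp
  | add u v _ _ hu hv => rw [mul_add]; exact Submodule.add_mem _ hu hv
  | smul c u _ hu => rw [mul_smul_comm]; exact Submodule.smul_mem _ _ hu

lemma raises_a : Raises k (gen k .a) 1 := by
  apply raises_of
  intro l m i j r
  have : gen k .a * mon k l m i j r = mon k (l + 1) m i j r := by
    rw [mon, mon, pow_succ', mul_assoc]
  rw [this]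
  exact mon_mem k (by unfold wt; omega)

lemma raises_b : Raises k (gen k .b) 2 := by
  apply raises_of
  intro l m i j r
  have : gen k .b * mon k l m i j r = mon k l (m + 1) i j r := by
    have hc : Commute (gen k .b) (gen k .a ^ l) := Commute.pow_right (gen_rels k).ba l
    rw [mon, mon, pow_succ' (gen k .b), ← mul_assoc, hc.eq]
    simp only [mul_assoc]
  rw [this]
  exact mon_mem k (by unfold wt; omega)

lemma raises_z : Raises k (gen k .z) 3 := by
  apply raises_of
  intro l m i j r
  have : gen k .z * mon k l m i j r = mon k l m (i + 1) j r := by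
    have hc : Commute (gen k .z) (gen k .a ^ l) := Commute.pow_right (gen_rels k).za l
    have hc' : Commute (gen k .z) (gen k .b ^ m) := Commute.pow_right (gen_rels k).zb m
    rw [mon, mon, pow_succ' (gen k .z), ← mul_assoc, hc.eq, mul_assoc, ← mul_assoc (gen k .z),
      hc'.eq]
    simp only [mul_assoc]
  rw [this]
  exact mon_mem k (by unfold wt; omega)

lemma mon_succ_a (l m i j r : ℕ) : mon k (l + 1) m i j r = gen k .a * mon k l m i j r := by
  rw [mon, mon, pow_succ', mul_assoc]

lemma mon_succ_b (m i j r : ℕ) : mon k 0 (m + 1) i j r = gen k .b * mon k 0 m i j r := by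
  rw [mon, mon, pow_succ', pow_zero, one_mul, one_mul, mul_assoc]

lemma mon_succ_x (i j r : ℕ) : mon k 0 0 i (j + 1) r = gen k .x * mon k 0 0 i j r := by
  have hc : Commute (gen k .x) (gen k .z ^ i) := Commute.pow_right (gen_rels k).xz i
  simp only [mon, pow_zero, one_mul]
  rw [pow_succ' (gen k .x), ← mul_assoc (gen k .x) (gen k .z ^ i), hc.eq]
  simp only [mul_assoc]

lemma raises_x : Raises k (gen k .x) 2 := by
  apply raises_of
  intro l
  induction l with
  | zero =>
    intro m
    induction m with
    | zero =>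
      intro i j r
      rw [← mon_succ_x]
      exact mon_mem k (by unfold wt; omega)
    | succ m ih =>
      intro i j r
      rw [mon_succ_b, (gen_rels k).xb']
      apply Submodule.add_mem
      · exact Fil_anti k (by unfold wt; omega) (raises_b k _ _ (ih i j r))
      · exact Fil_anti k (by unfold wt; omega)
          (raises_a k _ _ (raises_z k _ _ (mon_mem k le_rfl)))
  | succ l ih =>
    intro m i j r
    rw [mon_succ_a, (gen_rels k).xa']
    apply Submodule.add_mem
    · exact Fil_anti k (by unfold wt; omega) (raises_a k _ _ (ih m i j r))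
    · exact Fil_anti k (by unfold wt; omega) (raises_z k _ _ (mon_mem k le_rfl))

lemma raises_y : Raises k (gen k .y) 1 := by
  apply raises_of
  intro l
  induction l with
  | zero =>
    intro m
    induction m with
    | zero =>
      intro i j
      induction j with
      | zero =>
        intro r
        have : gen k .y * mon k 0 0 i 0 r = mon k 0 0 i 0 (r + 1) := by
          have hc : Commute (gen k .y) (gen k .z ^ i) := Commute.pow_right (gen_rels k).yz i
          simp only [mon, pow_zero, one_mul]
          rw [← mul_assoc, hc.eq, mul_assoc, pow_succ']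
        rw [this]
        exact mon_mem k (by unfold wt; omega)
      | succ j ih =>
        intro r
        rw [mon_succ_x, (gen_rels k).yx']
        apply Submodule.add_mem
        · exact Fil_anti k (by unfold wt; omega) (raises_x k _ _ (ih r))
        · exact Fil_anti k (by unfold wt; omega)
            (raises_z k _ _ (raises_x k _ _ (mon_mem k le_rfl)))
    | succ m ih =>
      intro i j r
      rw [mon_succ_b, (gen_rels k).yb']
      apply Submodule.add_mem
      · apply Submodule.add_mem
        · exact Fil_anti k (by unfold wt; omega) (raises_b k _ _ (ih i j r))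
        · exact Fil_anti k (by unfold wt; omega)
            (raises_a k _ _ (raises_x k _ _ (mon_mem k le_rfl)))
      · exact Fil_anti k (by unfold wt; omega) (raises_z k _ _ (mon_mem k le_rfl))
  | succ l ih =>
    intro m i j r
    rw [mon_succ_a, (gen_rels k).ya']
    apply Submodule.add_mem
    · exact Fil_anti k (by unfold wt; omega) (raises_a k _ _ (ih m i j r))
    · exact Fil_anti k (by unfold wt; omega) (raises_x k _ _ (mon_mem k le_rfl))

lemma raises_gen (g : Gen) : Raises k (gen k g) 1 := by
  cases g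
  · exact raises_a k
  · exact fun n w hw => Fil_anti k (by omega) (raises_b k n w hw)
  · exact fun n w hw => Fil_anti k (by omega) (raises_z k n w hw)
  · exact fun n w hw => Fil_anti k (by omega) (raises_x k n w hw)
  · exact raises_y k

lemma raises_zero (h : H k) : Raises k h 0 := by
  induction h using H_induction with
  | halg r =>
    intro n w hw
    rw [← Algebra.smul_def]
    exact Submodule.smul_mem _ _ hw
  | hgen g => exact fun n w hw => Fil_anti k (by omega) (raises_gen k g n w hw)
  | hadd u v hu hv =>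
    intro n w hw
    rw [add_mul]
    exact Submodule.add_mem _ (hu n w hw) (hv n w hw)
  | hmul u v hu hv =>
    intro n w hw
    rw [mul_assoc]
    exact hu _ _ (hv _ _ hw)

lemma mem_Fil_zero (h : H k) : h ∈ Fil k 0 := by
  have h1 : (1 : H k) ∈ Fil k 0 := by
    have := mon_mem k (n := 0) (l := 0) (m := 0) (i := 0) (j := 0) (r := 0) (Nat.zero_le _)
    simpa [mon] using this
  simpa using raises_zero k h 0 1 h1

lemma mon_eq_zero {l m i j r : ℕ} (h : 4 ≤ l ∨ 4 ≤ m ∨ 2 ≤ i ∨ 4 ≤ j ∨ 8 ≤ r) :
    mon k l m i j r = 0 := by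
  have hr := gen_rels k
  rcases h with h | h | h | h | h
  · rw [mon, pow_eq_zero_of_le h hr.a4, zero_mul]
  · rw [mon, pow_eq_zero_of_le h hr.b4, zero_mul, mul_zero]
  · rw [mon, pow_eq_zero_of_le h (by rw [pow_two]; exact hr.zz), zero_mul, mul_zero, mul_zero]
  · rw [mon, pow_eq_zero_of_le h hr.x4, zero_mul, mul_zero, mul_zero, mul_zero]
  · rw [mon, pow_eq_zero_of_le h hr.y8, mul_zero, mul_zero, mul_zero, mul_zero]

lemma Fil_top : Fil k 26 = ⊥ := by
  rw [Fil, Submodule.span_eq_bot]
  rintro w ⟨l, m, i, j, r, h, rfl⟩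
  apply mon_eq_zero
  unfold wt at h
  omega

instance : Module.Finite k (H k) := by
  constructor
  have : (⊤ : Submodule k (H k)) = Submodule.span k
      (Set.range fun p : Fin 4 × Fin 4 × Fin 2 × Fin 4 × Fin 8 =>
        mon k p.1 p.2.1 p.2.2.1 p.2.2.2.1 p.2.2.2.2) := by
    symm
    rw [eq_top_iff]
    intro h _
    have hh := mem_Fil_zero k h
    revert hh
    apply Submodule.span_le.2
    rintro w ⟨l, m, i, j, r, -, rfl⟩
    by_cases hb : 4 ≤ l ∨ 4 ≤ m ∨ 2 ≤ i ∨ 4 ≤ j ∨ 8 ≤ r
    · rw [mon_eq_zero k hb]; exact Submodule.zero_mem _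
    · simp only [not_or, not_le] at hb
      obtain ⟨h1, h2, h3, h4, h5⟩ := hb
      exact Submodule.subset_span ⟨(⟨l, h1⟩, ⟨m, h2⟩, ⟨i, h3⟩, ⟨j, h4⟩, ⟨r, h5⟩), rfl⟩
  rw [this]
  exact Submodule.fg_span (Set.finite_range _)

lemma raises_mon {l m i j r : ℕ} (h : 1 ≤ wt l m i j r) : Raises k (mon k l m i j r) 1 := by
  have key : ∀ (g : Gen) (w : H k), Raises k (gen k g * w) 1 := by
    intro g w n v hv
    rw [mul_assoc]
    exact raises_gen k g _ _ (raises_zero k w _ _ hv)
  rcases Nat.eq_zero_or_pos l with hl | hl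
  · subst hl
    rcases Nat.eq_zero_or_pos m with hm | hm
    · subst hm
      rcases Nat.eq_zero_or_pos j with hj | hj
      · subst hj
        rcases Nat.eq_zero_or_pos i with hi | hi
        · subst hi
          obtain ⟨r, rfl⟩ : ∃ r', r = r' + 1 := ⟨r - 1, by unfold wt at h; omega⟩
          have : mon k 0 0 0 0 (r + 1) = gen k .y * gen k .y ^ r := by
            simp [mon, pow_succ']
          rw [this]
          exact key _ _
        · obtain ⟨i, rfl⟩ : ∃ i', i = i' + 1 := ⟨i - 1, by omega⟩
          have : mon k 0 0 (i + 1) 0 r = gen k .z * (gen k .z ^ i * gen k .y ^ r) := by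
            simp [mon, pow_succ', mul_assoc]
          rw [this]
          exact key _ _
      · obtain ⟨j, rfl⟩ : ∃ j', j = j' + 1 := ⟨j - 1, by omega⟩
        rw [mon_succ_x]
        exact key _ _
    · obtain ⟨m, rfl⟩ : ∃ m', m = m' + 1 := ⟨m - 1, by omega⟩
      rw [mon_succ_b]
      exact key _ _
  · obtain ⟨l, rfl⟩ : ∃ l', l = l' + 1 := ⟨l - 1, by omega⟩
    rw [mon_succ_a]
    exact key _ _

lemma raises_of_mem {h : H k} (hh : h ∈ Fil k 1) : Raises k h 1 := by
  induction hh using Submodule.span_induction with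
  | mem w hw =>
    obtain ⟨l, m, i, j, r, hn, rfl⟩ := hw
    exact raises_mon k hn
  | zero => intro n w _; simp
  | add u v _ _ hu hv =>
    intro n w hw
    rw [add_mul]
    exact Submodule.add_mem _ (hu n w hw) (hv n w hw)
  | smul c u _ hu =>
    intro n w hw
    rw [smul_mul_assoc]
    exact Submodule.smul_mem _ _ (hu n w hw)

lemma pow_mem {h : H k} (hh : h ∈ Fil k 1) (t : ℕ) : h ^ t ∈ Fil k t := by
  induction t with
  | zero => exact mem_Fil_zero k _
  | succ t ih => rw [pow_succ']; exact raises_of_mem k hh t _ ih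

lemma isNilpotent_of_mem {h : H k} (hh : h ∈ Fil k 1) : IsNilpotent h := by
  refine ⟨26, ?_⟩
  have := pow_mem k hh 26
  rwa [Fil_top, Submodule.mem_bot] at this

lemma gen_mem (g : Gen) : gen k g ∈ Fil k 1 := by
  have := raises_gen k g 0 1 (mem_Fil_zero k 1)
  simpa using this

variable [CharP k 2]

lemma sub_counit_mem (h : H k) : h - algebraMap k (H k) (counitHom k h) ∈ Fil k 1 := by
  induction h using H_induction with
  | halg r => rw [AlgHom.commutes]; simp
  | hgen g => rw [counitHom_gen]; simpa using gen_mem k g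
  | hadd u v hu hv =>
    have := Submodule.add_mem _ hu hv
    rw [map_add, map_add]
    convert this using 1
    abel
  | hmul u v hu hv =>
    have h1 := raises_of_mem k hu 0 v (mem_Fil_zero k v)
    have h2 := Submodule.smul_mem _ (counitHom k u) hv
    have := Submodule.add_mem _ h1 h2
    rw [map_mul, map_mul]
    convert this using 1
    rw [Algebra.smul_def, sub_mul, mul_sub]
    abel

lemma isUnit_of_counit {h : H k} (hh : counitHom k h ≠ 0) : IsUnit h := by
  set c := counitHom k h with hc
  have h1 := sub_counit_mem k h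
  have h2 : c⁻¹ • (h - algebraMap k (H k) c) ∈ Fil k 1 := Submodule.smul_mem _ _ h1
  have h3 := (isNilpotent_of_mem k h2).isUnit_one_add
  have h4 : h = algebraMap k (H k) c * (1 + c⁻¹ • (h - algebraMap k (H k) c)) := by
    rw [mul_add, mul_one, ← Algebra.smul_def, smul_smul, mul_inv_cancel₀ hh, one_smul]
    abel
  rw [h4]
  exact ((isUnit_iff_ne_zero.2 hh).map (algebraMap k (H k))).mul h3

lemma local_H : ∃! I : Ideal (H k), I.IsMaximal := by
  have hnt : ∀ J : Ideal (H k), J ≠ ⊤ → J ≤ RingHom.ker (counitHom k) := by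
    intro J hJ u hu
    by_contra hne
    exact hJ (Ideal.eq_top_of_isUnit_mem J hu (isUnit_of_counit k hne))
  have hne : RingHom.ker (counitHom k) ≠ ⊤ := by
    intro h
    have : (1 : H k) ∈ RingHom.ker (counitHom k) := by rw [h]; trivial
    rw [RingHom.mem_ker, map_one] at this
    exact one_ne_zero this
  have hmax : (RingHom.ker (counitHom k)).IsMaximal := by
    refine ⟨⟨hne, ?_⟩⟩
    intro J hJ
    by_contra h
    exact absurd (hnt J h) (not_le_of_gt hJ)
  refine ⟨_, hmax, ?_⟩
  intro J hJ
  exact hJ.eq_of_le hne (hnt J hJ.ne_top)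

/-- The integral. -/
noncomputable def Lam : H k := mon k 3 3 1 3 7

lemma mul_Lam (h : H k) : h * Lam k = counitHom k h • Lam k := by
  have h1 := raises_of_mem k (sub_counit_mem k h) 25 (Lam k)
    (mon_mem k (by unfold wt; omega))
  rw [Fil_top, Submodule.mem_bot, sub_mul, sub_eq_zero] at h1
  rw [h1, Algebra.smul_def]

end fil

end Pool.Agent.LocHopf
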