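import Pool.Agent.LocHopf.Basic

set_option linter.unusedSimpArgs false

namespace Pool.Agent.LocHopf

open scoped TensorProduct

universe u v

/-- The five generators. -/
inductive Gen
  | a | b | z | x | y

section defs

variable (k : Type u) [Field k]

/-- The generator `g` of the free algebra. -/
abbrev fg (g : Gen) : FreeAlgebra k Gen := FreeAlgebra.ι k g

/-- The relations of the algebra. -/
inductive Rel : FreeAlgebra k Gen → FreeAlgebra k Gen → Prop
  | ba : Rel (fg k .b * fg k .a) (fg k .a * fg k .b)
  | za : Rel (fg k .z * fg k .a) (fg k .a * fg k .z)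
  | zb : Rel (fg k .z * fg k .b) (fg k .b * fg k .z)
  | xz : Rel (fg k .x * fg k .z) (fg k .z * fg k .x)
  | yz : Rel (fg k .y * fg k .z) (fg k .z * fg k .y)
  | xa : Rel (fg k .x * fg k .a) (fg k .a * fg k .x + fg k .z)
  | ya : Rel (fg k .y * fg k .a) (fg k .a * fg k .y + fg k .x)
  | xb : Rel (fg k .x * fg k .b) (fg k .b * fg k .x + fg k .a * fg k .z)
  | yb : Rel (fg k .y * fg k .b) (fg k .b * fg k .y + fg k .a * fg k .x + fg k .z)
  | yx : Rel (fg k .y * fg k .x) (fg k .x * fg k .y + fg k .z * fg k .x)
  | zz : Rel (fg k .z * fg k .z) 0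
  | a4 : Rel (fg k .a ^ 4) 0
  | b4 : Rel (fg k .b ^ 4) 0
  | x4 : Rel (fg k .x ^ 4) 0
  | y8 : Rel (fg k .y ^ 8) 0

/-- The algebra. -/
def H : Type u := RingQuot (Rel k)

noncomputable instance : Ring (H k) := inferInstanceAs (Ring (RingQuot (Rel k)))
noncomputable instance : Algebra k (H k) := inferInstanceAs (Algebra k (RingQuot (Rel k)))

/-- The quotient map. -/
noncomputable def mk : FreeAlgebra k Gen →ₐ[k] H k := RingQuot.mkAlgHom k (Rel k)

lemma mk_surjective : Function.Surjective (mk k) := RingQuot.mkAlgHom_surjective k (Rel k)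

/-- The generators of `H`. -/
noncomputable def gen (g : Gen) : H k := mk k (fg k g)

lemma gen_rels : Rels (gen k .a) (gen k .b) (gen k .z) (gen k .x) (gen k .y) := by
  have e : ∀ {p q : FreeAlgebra k Gen}, Rel k p q →
      mk k p = mk k q :=
    fun h => RingQuot.mkAlgHom_rel k h
  constructor
  · have := e Rel.ba; rwa [map_mul, map_mul] at this
  · have := e Rel.za; rwa [map_mul, map_mul] at this
  · have := e Rel.zb; rwa [map_mul, map_mul] at this
  · have := e Rel.xz; rwa [map_mul, map_mul] at this
  · have := e Rel.yz; rwa [map_mul, map_mul] at this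
  · have := e Rel.xa; rwa [map_mul, map_add, map_mul] at this
  · have := e Rel.ya; rwa [map_mul, map_add, map_mul] at this
  · have := e Rel.xb; rwa [map_mul, map_add, map_mul, map_mul] at this
  · have := e Rel.yb; rwa [map_mul, map_add, map_add, map_mul, map_mul] at this
  · have := e Rel.yx; rwa [map_mul, map_add, map_mul, map_mul] at this
  · have := e Rel.zz; rwa [map_mul, map_zero] at this
  · have := e Rel.a4; rwa [map_pow, map_zero] at this
  · have := e Rel.b4; rwa [map_pow, map_zero] at this
  · have := e Rel.x4; rwa [map_pow, map_zero] at this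
  · have := e Rel.y8; rwa [map_pow, map_zero] at this

variable {k}

/-- Universal property. -/
noncomputable def lift {B : Type v} [Ring B] [Algebra k B] {a b z x y : B}
    (h : Rels a b z x y) : H k →ₐ[k] B :=
  RingQuot.liftAlgHom k ⟨FreeAlgebra.lift k
    (fun g => match g with | .a => a | .b => b | .z => z | .x => x | .y => y), by
    intro p q hpq
    cases hpq
    · simpa using h.ba
    · simpa using h.za
    · simpa using h.zb
    · simpa using h.xz
    · simpa using h.yz
    · simpa using h.xa
    · simpa using h.ya
    · simpa using h.xb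
    · simpa using h.yb
    · simpa using h.yx
    · simpa using h.zz
    · simpa using h.a4
    · simpa using h.b4
    · simpa using h.x4
    · simpa using h.y8⟩

section lift

variable {B : Type v} [Ring B] [Algebra k B] {a b z x y : B} (h : Rels a b z x y)

lemma lift_mk (w : FreeAlgebra k Gen) : lift (k := k) h (mk k w) = FreeAlgebra.lift k
    (fun g => match g with | .a => a | .b => b | .z => z | .x => x | .y => y) w :=
  RingQuot.liftAlgHom_mkAlgHom_apply _ _ _ _

@[simp] lemma lift_a : lift (k := k) h (gen k .a) = a := by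
  rw [gen, lift_mk, FreeAlgebra.lift_ι_apply]
@[simp] lemma lift_b : lift (k := k) h (gen k .b) = b := by
  rw [gen, lift_mk, FreeAlgebra.lift_ι_apply]
@[simp] lemma lift_z : lift (k := k) h (gen k .z) = z := by
  rw [gen, lift_mk, FreeAlgebra.lift_ι_apply]
@[simp] lemma lift_x : lift (k := k) h (gen k .x) = x := by
  rw [gen, lift_mk, FreeAlgebra.lift_ι_apply]
@[simp] lemma lift_y : lift (k := k) h (gen k .y) = y := by
  rw [gen, lift_mk, FreeAlgebra.lift_ι_apply]

end lift

lemma hom_ext {B : Type v} [Semiring B] [Algebra k B] {f g : H k →ₐ[k] B}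
    (h : ∀ i, f (gen k i) = g (gen k i)) : f = g := by
  apply RingQuot.ringQuot_ext'
  apply FreeAlgebra.hom_ext
  funext i
  exact h i

/-- Induction principle. -/
lemma H_induction {P : H k → Prop} (halg : ∀ r : k, P (algebraMap k (H k) r))
    (hgen : ∀ g, P (gen k g)) (hadd : ∀ u v, P u → P v → P (u + v))
    (hmul : ∀ u v, P u → P v → P (u * v)) (h : H k) : P h := by
  obtain ⟨w, rfl⟩ := mk_surjective k h
  induction w using FreeAlgebra.induction with
  | grade0 r =>
    rw [AlgHom.commutes]
    exact halg r
  | grade1 g => exact hgen g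
  | mul p q hp hq => rw [map_mul]; exact hmul _ _ hp hq
  | add p q hp hq => rw [map_add]; exact hadd _ _ hp hq

end defs

section hopf

variable (k : Type u) [Field k] [CharP k 2]

omit [CharP k 2] in
lemma zero_rels : Rels (0 : k) 0 0 0 0 := by
  constructor <;> simp

/-- Comultiplication. -/
noncomputable def comulHom : H k →ₐ[k] H k ⊗[k] H k := lift ((gen_rels k).tensor k)

/-- Counit. -/
noncomputable def counitHom : H k →ₐ[k] k := lift (zero_rels k)

/-- Antipode, as a homomorphism to the opposite algebra. -/
noncomputable def antiHom : H k →ₐ[k] (H k)ᵐᵒᵖ := lift ((gen_rels k).opp k)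

/-- Antipode. -/
noncomputable def anti : H k →ₗ[k] H k :=
  (MulOpposite.opLinearEquiv k).symm.toLinearMap ∘ₗ (antiHom k).toLinearMap

lemma anti_apply (h : H k) : anti k h = MulOpposite.unop (antiHom k h) := rfl

lemma anti_mul (u v : H k) : anti k (u * v) = anti k v * anti k u := by
  simp [anti_apply]

lemma anti_algebraMap (r : k) : anti k (algebraMap k (H k) r) = algebraMap k (H k) r := by
  rw [anti_apply, AlgHom.commutes]; rfl

omit [CharP k 2] in
lemma counitHom_gen (g : Gen) : counitHom k (gen k g) = 0 := by
  cases g <;> simp [counitHom]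

noncomputable instance : Bialgebra k (H k) :=
  Bialgebra.ofAlgHom (comulHom k) (counitHom k)
    (by
      apply hom_ext
      intro i
      cases i <;> simp [comulHom, TensorProduct.add_tmul, TensorProduct.tmul_add,
        Algebra.TensorProduct.one_def] <;> abel)
    (by
      apply hom_ext
      intro i
      cases i <;> simp [comulHom, counitHom_gen])
    (by
      apply hom_ext
      intro i
      cases i <;> simp [comulHom, counitHom_gen])

lemma comul_eq (h : H k) : Coalgebra.comul (R := k) h = comulHom k h := rfl

lemma counit_eq (h : H k) : Coalgebra.counit (R := k) h = counitHom k h := rfl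

/-- The map `p ⊗ q ↦ S(p) q`. -/
noncomputable def mL : H k ⊗[k] H k →ₗ[k] H k :=
  LinearMap.mul' k (H k) ∘ₗ (anti k).rTensor (H k)

/-- The map `p ⊗ q ↦ p S(q)`. -/
noncomputable def mR : H k ⊗[k] H k →ₗ[k] H k :=
  LinearMap.mul' k (H k) ∘ₗ (anti k).lTensor (H k)

@[simp] lemma mL_tmul (p q : H k) : mL k (p ⊗ₜ q) = anti k p * q := by simp [mL]

@[simp] lemma mR_tmul (p q : H k) : mR k (p ⊗ₜ q) = p * anti k q := by simp [mR]

lemma mL_mul_tmul (t : H k ⊗[k] H k) (p q : H k) :
    mL k (t * (p ⊗ₜ q)) = anti k p * mL k t * q := by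
  induction t using TensorProduct.induction_on with
  | zero => simp
  | tmul r s => simp [anti_mul, mul_assoc]
  | add u v hu hv => simp [add_mul, mul_add, hu, hv]

lemma mL_mul (t s : H k ⊗[k] H k) (c : k) (ht : mL k t = algebraMap k (H k) c) :
    mL k (t * s) = algebraMap k (H k) c * mL k s := by
  induction s using TensorProduct.induction_on with
  | zero => simp
  | tmul p q =>
    rw [mL_mul_tmul, ht, mL_tmul, ← Algebra.commutes, mul_assoc]
  | add u v hu hv => simp [mul_add, hu, hv]

lemma mR_tmul_mul (t : H k ⊗[k] H k) (p q : H k) :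
    mR k ((p ⊗ₜ q) * t) = p * mR k t * anti k q := by
  induction t using TensorProduct.induction_on with
  | zero => simp
  | tmul r s => simp [anti_mul, mul_assoc]
  | add u v hu hv => simp [add_mul, mul_add, hu, hv]

lemma mR_mul (t s : H k ⊗[k] H k) (c : k) (ht : mR k t = algebraMap k (H k) c) :
    mR k (s * t) = algebraMap k (H k) c * mR k s := by
  induction s using TensorProduct.induction_on with
  | zero => simp
  | tmul p q =>
    rw [mR_tmul_mul, ht, mR_tmul, ← Algebra.commutes, mul_assoc]
  | add u v hu hv => simp [add_mul, mul_add, hu, hv]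

lemma mL_comul (h : H k) : mL k (comulHom k h) = algebraMap k (H k) (counitHom k h) := by
  induction h using H_induction with
  | halg r =>
    rw [AlgHom.commutes, AlgHom.commutes, Algebra.TensorProduct.algebraMap_apply, mL_tmul,
      anti_algebraMap]
    simp
  | hgen g =>
    rw [counitHom_gen, map_zero]
    have d : ∀ w : H k, w + w = 0 := dbl k
    have s : ∀ w : H k, (2 : ℤ) • w = 0 := fun w => by rw [two_zsmul, d]
    have h1 : anti k 1 = 1 := by simpa using anti_algebraMap k 1
    cases g
    · simp [comulHom, anti_apply, antiHom, d]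
    · simp [comulHom, anti_apply, antiHom, add_mul, mul_assoc]
      abel_nf
      simp [s]
    · simp [comulHom, anti_apply, antiHom, d]
    · simp [comulHom, anti_apply, antiHom, add_mul, mul_assoc]
      abel_nf
      simp [s]
    · simp [comulHom, anti_apply, antiHom, add_mul, mul_assoc]
      abel_nf
      simp [s]
  | hadd u v hu hv => simp only [map_add, hu, hv]
  | hmul u v hu hv => rw [map_mul, mL_mul k _ _ _ hu, hv, map_mul, map_mul]

lemma mR_comul (h : H k) : mR k (comulHom k h) = algebraMap k (H k) (counitHom k h) := by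
  induction h using H_induction with
  | halg r =>
    rw [AlgHom.commutes, AlgHom.commutes, Algebra.TensorProduct.algebraMap_apply, mR_tmul]
    simp [anti_apply]
  | hgen g =>
    rw [counitHom_gen, map_zero]
    have d : ∀ w : H k, w + w = 0 := dbl k
    have s : ∀ w : H k, (2 : ℤ) • w = 0 := fun w => by rw [two_zsmul, d]
    cases g
    · simp [comulHom, anti_apply, antiHom, d]
    · simp [comulHom, anti_apply, antiHom, mul_add, mul_assoc]
      abel_nf
      simp [s]
    · simp [comulHom, anti_apply, antiHom, d]
    · simp [comulHom, anti_apply, antiHom, mul_add, mul_assoc]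
      abel_nf
      simp [s]
    · simp [comulHom, anti_apply, antiHom, mul_add, mul_assoc]
      abel_nf
      simp [s]
  | hadd u v hu hv => simp only [map_add, hu, hv]
  | hmul u v hu hv => rw [map_mul, mR_mul k _ _ _ hv, hu, map_mul, map_mul, Algebra.commutes]

noncomputable instance : HopfAlgebra k (H k) where
  antipode := anti k
  mul_antipode_rTensor_comul := LinearMap.ext (mL_comul k)
  mul_antipode_lTensor_comul := LinearMap.ext (mR_comul k)

end hopf

end Pool.Agent.LocHopf
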