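import Pool.Agent.LocHopf.Fil

set_option linter.unusedSimpArgs false

namespace Pool.Agent.LocHopf

open scoped TensorProduct

universe u

section weyl

variable (k : Type u) [Field k]

/-- Four by four matrices. -/
abbrev Mt := Matrix (Fin 4) (Fin 4) k

/-- Multiplication by `t` on `k[t]/t^4`. -/
def mP : Mt k := !![0, 0, 0, 0; 1, 0, 0, 0; 0, 1, 0, 0; 0, 0, 1, 0]
/-- Derivative on `k[t]/t^4`. -/
def mD : Mt k := !![0, 1, 0, 0; 0, 0, 0, 0; 0, 0, 0, 1; 0, 0, 0, 0]
/-- Divided second derivative on `k[t]/t^4`. -/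
def mE : Mt k := !![0, 0, 1, 0; 0, 0, 0, 1; 0, 0, 0, 0; 0, 0, 0, 0]

lemma mDP [CharP k 2] : mD k * mP k = mP k * mD k + 1 := by
  have h2 : (1 : k) + 1 = 0 := CharTwo.add_self_eq_zero 1
  ext i j
  fin_cases i <;> fin_cases j <;>
    simp [mD, mP, Matrix.mul_apply, Fin.sum_univ_succ, h2]

lemma mEP [CharP k 2] : mE k * mP k = mP k * mE k + mD k := by
  have h2 : (1 : k) + 1 = 0 := CharTwo.add_self_eq_zero 1
  ext i j
  fin_cases i <;> fin_cases j <;>
    simp [mD, mP, mE, Matrix.mul_apply, Fin.sum_univ_succ, h2]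

lemma mDD : mD k * mD k = 0 := by
  ext i j
  fin_cases i <;> fin_cases j <;>
    simp [mD, mP, mE, Matrix.mul_apply, Fin.sum_univ_succ]

lemma mED : mE k * mD k = mD k * mE k := by
  ext i j
  fin_cases i <;> fin_cases j <;>
    simp [mD, mP, mE, Matrix.mul_apply, Fin.sum_univ_succ]

lemma mPPPP : mP k * (mP k * (mP k * mP k)) = 0 := by
  ext i j
  fin_cases i <;> fin_cases j <;>
    simp [mD, mP, mE, Matrix.mul_apply, Fin.sum_univ_succ]

lemma mPPP : mP k * (mP k * mP k) ≠ 0 := by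
  intro h
  have := congrFun (congrFun h 3) 0
  simp [mP, Matrix.mul_apply, Fin.sum_univ_succ] at this

lemma mPPPP' (w : Mt k) : mP k * (mP k * (mP k * (mP k * w))) = 0 := by
  have : mP k * (mP k * (mP k * (mP k * w))) = (mP k * (mP k * (mP k * mP k))) * w := by
    simp only [mul_assoc]
  rw [this, mPPPP, zero_mul]

lemma mDP' [CharP k 2] (w : Mt k) : mD k * (mP k * w) = mP k * (mD k * w) + w := by
  rw [← mul_assoc, mDP, add_mul, mul_assoc, one_mul]

lemma mEP' [CharP k 2] (w : Mt k) : mE k * (mP k * w) = mP k * (mE k * w) + mD k * w := by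
  rw [← mul_assoc, mEP, add_mul, mul_assoc]

lemma mDD' (w : Mt k) : mD k * (mD k * w) = 0 := by
  rw [← mul_assoc, mDD, zero_mul]

lemma mED' (w : Mt k) : mE k * (mD k * w) = mD k * (mE k * w) := by
  rw [← mul_assoc, mED, mul_assoc]

/-- The relations of the operators on `k[a,b]/(a^4,b^4)`. -/
structure VRels {R : Type*} [Ring R] (a b p q : R) : Prop where
  ba : b * a = a * b
  pa : p * a = a * p + 1
  pb : p * b = b * p + a
  qa : q * a = a * q + p
  qb : q * b = b * q + 1 + a * p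
  qp : q * p = p * q
  a4 : a ^ 4 = 0
  b4 : b ^ 4 = 0

lemma vRels [CharP k 2] : VRels (R := Mt k ⊗[k] Mt k) (mP k ⊗ₜ 1) (1 ⊗ₜ mP k)
    (mD k ⊗ₜ 1 + mP k ⊗ₜ mD k)
    (mE k ⊗ₜ 1 + (mP k * mD k) ⊗ₜ mD k + 1 ⊗ₜ mD k + (mP k * mP k) ⊗ₜ mE k) := by
  have d : ∀ w : Mt k ⊗[k] Mt k, w + w = 0 := dbl k
  have s : ∀ w : Mt k ⊗[k] Mt k, (2 : ℤ) • w = 0 := fun w => by rw [two_zsmul, d]
  have s2 : ∀ w : Mt k ⊗[k] Mt k, (-2 : ℤ) • w = 0 := fun w => by rw [neg_smul, s, neg_zero]
  constructor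
  · simp [Algebra.TensorProduct.tmul_mul_tmul]
  · rw [← sub_eq_zero]
    simp only [mul_add, add_mul, Algebra.TensorProduct.tmul_mul_tmul, one_mul, mul_one, mul_assoc,
      mDP, mDP', mEP, mEP', mDD, mDD', mED, mED', TensorProduct.add_tmul, TensorProduct.tmul_add,
      Algebra.TensorProduct.one_def, mul_zero, TensorProduct.tmul_zero, TensorProduct.zero_tmul]
    abel_nf
    try simp only [s, s2, add_zero, zero_add]
  · rw [← sub_eq_zero]
    simp only [mul_add, add_mul, Algebra.TensorProduct.tmul_mul_tmul, one_mul, mul_one, mul_assoc,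
      mDP, mDP', mEP, mEP', mDD, mDD', mED, mED', TensorProduct.add_tmul, TensorProduct.tmul_add,
      Algebra.TensorProduct.one_def, mul_zero, TensorProduct.tmul_zero, TensorProduct.zero_tmul]
    abel_nf
    try simp only [s, s2, add_zero, zero_add]
  · rw [← sub_eq_zero]
    simp only [mul_add, add_mul, Algebra.TensorProduct.tmul_mul_tmul, one_mul, mul_one, mul_assoc,
      mDP, mDP', mEP, mEP', mDD, mDD', mED, mED', TensorProduct.add_tmul, TensorProduct.tmul_add,
      Algebra.TensorProduct.one_def, mul_zero, TensorProduct.tmul_zero, TensorProduct.zero_tmul]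
    abel_nf
    try simp only [s, s2, add_zero, zero_add]
  · rw [← sub_eq_zero]
    simp only [mul_add, add_mul, Algebra.TensorProduct.tmul_mul_tmul, one_mul, mul_one, mul_assoc,
      mDP, mDP', mEP, mEP', mDD, mDD', mED, mED', TensorProduct.add_tmul, TensorProduct.tmul_add,
      Algebra.TensorProduct.one_def, mul_zero, TensorProduct.tmul_zero, TensorProduct.zero_tmul]
    abel_nf
    try simp only [s, s2, add_zero, zero_add]
  · rw [← sub_eq_zero]
    simp only [mul_add, add_mul, Algebra.TensorProduct.tmul_mul_tmul, one_mul, mul_one, mul_assoc,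
      mDP, mDP', mEP, mEP', mDD, mDD', mED, mED', TensorProduct.add_tmul, TensorProduct.tmul_add,
      Algebra.TensorProduct.one_def, mul_zero, TensorProduct.tmul_zero, TensorProduct.zero_tmul]
    abel_nf
    try simp only [s, s2, add_zero, zero_add]
  · simp [pow_succ, Algebra.TensorProduct.tmul_mul_tmul, mul_assoc, mPPPP]
  · simp [pow_succ, Algebra.TensorProduct.tmul_mul_tmul, mul_assoc, mPPPP]

end weyl

section nichols

variable (k : Type u) [Field k]

/-- The commutative ring `k[η]/(η^8)`. -/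
abbrev Dr := AdjoinRoot ((Polynomial.X : Polynomial k) ^ 8)

/-- The commutative ring `k[ζ, η]/(ζ^2, η^8)`. -/
abbrev Cr := DualNumber (Dr k)

/-- The element `ζ`. -/
noncomputable def ze : Cr k := DualNumber.eps

/-- The element `η`. -/
noncomputable def et : Cr k :=
  TrivSqZeroExt.inl (AdjoinRoot.root ((Polynomial.X : Polynomial k) ^ 8))

lemma ze_mul : ze k * ze k = 0 := DualNumber.eps_mul_eps

lemma root_pow : (AdjoinRoot.root ((Polynomial.X : Polynomial k) ^ 8)) ^ 8 = 0 := by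
  rw [← AdjoinRoot.mk_X, ← map_pow, AdjoinRoot.mk_self]

lemma root_pow_ne : (AdjoinRoot.root ((Polynomial.X : Polynomial k) ^ 8)) ^ 7 ≠ 0 := by
  rw [← AdjoinRoot.mk_X, ← map_pow, Ne, AdjoinRoot.mk_eq_zero]
  intro h
  have := Polynomial.degree_le_of_dvd h (pow_ne_zero _ Polynomial.X_ne_zero)
  rw [Polynomial.degree_X_pow, Polynomial.degree_X_pow] at this
  exact absurd this (by norm_cast)

lemma et_pow : et k ^ 8 = 0 := by
  rw [et, TrivSqZeroExt.inl_pow, root_pow, TrivSqZeroExt.inl_zero]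

lemma ze_et : ze k * et k ^ 7 ≠ 0 := by
  intro h
  rw [et, TrivSqZeroExt.inl_pow, ze] at h
  have := congrArg TrivSqZeroExt.snd h
  simp at this
  exact root_pow_ne k this

/-- The relations of the algebra generated by `z, x, y`. -/
structure WRels {R : Type*} [Ring R] (z x y : R) : Prop where
  xz : x * z = z * x
  yz : y * z = z * y
  yx : y * x = x * y + z * x
  zz : z * z = 0
  x4 : x ^ 4 = 0
  y8 : y ^ 8 = 0

lemma wRels [CharP k 2] : WRels (R := Mt k ⊗[k] Cr k) (1 ⊗ₜ ze k) (mP k ⊗ₜ 1)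
    (1 ⊗ₜ et k + (mP k * mD k) ⊗ₜ ze k) := by
  have d : ∀ w : Mt k ⊗[k] Cr k, w + w = 0 := dbl k
  constructor
  · simp [Algebra.TensorProduct.tmul_mul_tmul]
  · simp [Algebra.TensorProduct.tmul_mul_tmul, mul_add, add_mul, mul_comm (ze k) (et k)]
  · simp only [mul_add, add_mul, Algebra.TensorProduct.tmul_mul_tmul, one_mul, mul_one, mul_assoc,
      mDP, mDP', TensorProduct.add_tmul, TensorProduct.tmul_add]
    abel
  · simp [Algebra.TensorProduct.tmul_mul_tmul, ze_mul]
  · simp [pow_succ, Algebra.TensorProduct.tmul_mul_tmul, mul_assoc, mPPPP]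
  · have e1 : (1 ⊗ₜ et k + (mP k * mD k) ⊗ₜ ze k : Mt k ⊗[k] Cr k) *
        (1 ⊗ₜ et k + (mP k * mD k) ⊗ₜ ze k) = 1 ⊗ₜ (et k * et k) := by
      simp only [mul_add, add_mul, Algebra.TensorProduct.tmul_mul_tmul, one_mul, mul_one,
        ze_mul, mul_comm (ze k) (et k), TensorProduct.tmul_zero, add_zero]
      rw [add_assoc, d, add_zero]
    have e2 := et_pow k
    rw [pow_eight_eq (R := Cr k)] at e2
    rw [pow_eight_eq (R := Mt k ⊗[k] Cr k), e1]
    simp only [Algebra.TensorProduct.tmul_mul_tmul, one_mul, e2,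
      TensorProduct.tmul_zero]

end nichols

section model

variable (k : Type u) [Field k] [CharP k 2]

theorem model_rels {R S : Type*} [Ring R] [Ring S] [Algebra k R] [Algebra k S]
    {a b p q : R} {z x y : S} (h : VRels a b p q) (g : WRels z x y) :
    Rels (R := R ⊗[k] S) (a ⊗ₜ 1) (b ⊗ₜ 1) (1 ⊗ₜ z) (1 ⊗ₜ x + p ⊗ₜ z)
      (1 ⊗ₜ y + p ⊗ₜ x + q ⊗ₜ z) := by
  have d : ∀ w : R ⊗[k] S, w + w = 0 := dbl k
  have s : ∀ w : R ⊗[k] S, (2 : ℤ) • w = 0 := fun w => by rw [two_zsmul, d]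
  have s2 : ∀ w : R ⊗[k] S, (-2 : ℤ) • w = 0 := fun w => by rw [neg_smul, s, neg_zero]
  have s4 : ∀ w : R ⊗[k] S, (4 : ℤ) • w = 0 := fun w => by
    rw [show (4 : ℤ) = 2 * 2 by norm_num, mul_smul, s]
  have xz' : ∀ w : S, x * (z * w) = z * (x * w) := fun w => by
    rw [← mul_assoc, g.xz, mul_assoc]
  have yz' : ∀ w : S, y * (z * w) = z * (y * w) := fun w => by
    rw [← mul_assoc, g.yz, mul_assoc]
  have yx' : ∀ w : S, y * (x * w) = x * (y * w) + z * (x * w) := fun w => by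
    rw [← mul_assoc, g.yx, add_mul, mul_assoc, mul_assoc]
  have zz' : ∀ w : S, z * (z * w) = 0 := fun w => by
    rw [← mul_assoc, g.zz, zero_mul]
  have qp' : ∀ w : R, q * (p * w) = p * (q * w) := fun w => by
    rw [← mul_assoc, h.qp, mul_assoc]
  have xxxx : x * (x * (x * x)) = 0 := by
    have := g.x4; simpa [pow_succ, mul_assoc] using this
  constructor
  · simp only [Algebra.TensorProduct.tmul_mul_tmul, mul_one, h.ba]
  · simp only [Algebra.TensorProduct.tmul_mul_tmul, mul_one, one_mul]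
  · simp only [Algebra.TensorProduct.tmul_mul_tmul, mul_one, one_mul]
  · simp only [mul_add, add_mul, Algebra.TensorProduct.tmul_mul_tmul, mul_one, one_mul, g.xz,
      g.zz]
  · simp only [mul_add, add_mul, Algebra.TensorProduct.tmul_mul_tmul, mul_one, one_mul, g.xz,
      g.zz, g.yz]
  · simp only [mul_add, add_mul, Algebra.TensorProduct.tmul_mul_tmul, mul_one, one_mul, h.pa,
      TensorProduct.add_tmul]
    abel
  · simp only [mul_add, add_mul, Algebra.TensorProduct.tmul_mul_tmul, mul_one, one_mul, h.pa,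
      h.qa, TensorProduct.add_tmul]
    abel
  · simp only [mul_add, add_mul, Algebra.TensorProduct.tmul_mul_tmul, mul_one, one_mul, h.pb,
      TensorProduct.add_tmul]
    abel
  · simp only [mul_add, add_mul, Algebra.TensorProduct.tmul_mul_tmul, mul_one, one_mul, h.pb,
      h.qb, TensorProduct.add_tmul]
    abel
  · rw [← sub_eq_zero]
    simp only [mul_add, add_mul, Algebra.TensorProduct.tmul_mul_tmul, mul_one, one_mul, g.xz,
      g.yz, g.yx, g.zz, h.qp, TensorProduct.tmul_add, TensorProduct.tmul_zero]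
    abel_nf
    try simp only [s, s2, add_zero, zero_add]
  · simp only [Algebra.TensorProduct.tmul_mul_tmul, mul_one, one_mul, g.zz,
      TensorProduct.tmul_zero]
  · simp only [Algebra.TensorProduct.tmul_pow, one_pow, h.a4, TensorProduct.zero_tmul]
  · simp only [Algebra.TensorProduct.tmul_pow, one_pow, h.b4, TensorProduct.zero_tmul]
  · have e1 : (1 ⊗ₜ x + p ⊗ₜ z : R ⊗[k] S) * (1 ⊗ₜ x + p ⊗ₜ z) = 1 ⊗ₜ (x * x) := by
      rw [← sub_eq_zero]
      simp only [mul_add, add_mul, Algebra.TensorProduct.tmul_mul_tmul, mul_one, one_mul, g.xz,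
        g.zz, TensorProduct.tmul_zero]
      abel_nf
      simp only [s, s2, add_zero, zero_add]
    have e2 := g.x4
    rw [pow_four_eq] at e2
    rw [pow_four_eq, e1]
    simp only [Algebra.TensorProduct.tmul_mul_tmul, mul_one, e2, TensorProduct.tmul_zero]
  · have e1 : (1 ⊗ₜ y + p ⊗ₜ x + q ⊗ₜ z : R ⊗[k] S) * (1 ⊗ₜ y + p ⊗ₜ x + q ⊗ₜ z) =
        1 ⊗ₜ (y * y) + p ⊗ₜ (z * x) + (p * p) ⊗ₜ (x * x) := by
      rw [← sub_eq_zero]
      simp only [mul_add, add_mul, Algebra.TensorProduct.tmul_mul_tmul, mul_one, one_mul, g.xz,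
        g.yx, g.yz, g.zz, h.qp, TensorProduct.tmul_zero, TensorProduct.tmul_add]
      abel_nf
      simp only [s, s2, add_zero, zero_add]
    have e2 : (1 ⊗ₜ (y * y) + p ⊗ₜ (z * x) + (p * p) ⊗ₜ (x * x) : R ⊗[k] S) *
        (1 ⊗ₜ (y * y) + p ⊗ₜ (z * x) + (p * p) ⊗ₜ (x * x)) = 1 ⊗ₜ ((y * y) * (y * y)) := by
      rw [← sub_eq_zero]
      simp only [mul_add, add_mul, Algebra.TensorProduct.tmul_mul_tmul, mul_one, one_mul, g.xz,
        g.yx, g.yz, g.zz, h.qp, mul_assoc, xz', yz', yx', zz', xxxx, mul_zero,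
        TensorProduct.tmul_zero, TensorProduct.tmul_add]
      abel_nf
      simp only [s, s2, s4, add_zero, zero_add]
    have e3 := g.y8
    rw [pow_eight_eq] at e3
    rw [pow_eight_eq, e1, e2]
    simp only [Algebra.TensorProduct.tmul_mul_tmul, mul_one, e3, TensorProduct.tmul_zero]

lemma WRels.zyx {S : Type*} [Ring S] {z x y : S} (g : WRels z x y) (n : ℕ) :
    z * (y ^ n * x) = z * (x * y ^ n) := by
  induction n with
  | zero => simp
  | succ n ih =>
    have hc : y ^ n * z = z * y ^ n := (Commute.pow_left g.yz n)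
    have e : z * (y ^ n * (z * x)) = 0 := by
      rw [← mul_assoc (y ^ n), hc, mul_assoc, ← mul_assoc z z, g.zz, zero_mul]
    rw [pow_succ, mul_assoc (y ^ n), g.yx, mul_add, mul_add, e, add_zero, ← mul_assoc (y ^ n),
      ← mul_assoc z, ih]
    simp only [mul_assoc]

lemma WRels.top_x {S : Type*} [Ring S] {z x y : S} (g : WRels z x y) (n : ℕ) :
    z * (x ^ 3 * y ^ n) * x = 0 := by
  have hc : x ^ 3 * z = z * x ^ 3 := (Commute.pow_left g.xz 3)
  calc z * (x ^ 3 * y ^ n) * x = (z * x ^ 3) * (y ^ n * x) := by simp only [mul_assoc]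
    _ = x ^ 3 * (z * (y ^ n * x)) := by rw [← hc, mul_assoc]
    _ = x ^ 3 * (z * (x * y ^ n)) := by rw [g.zyx]
    _ = (x ^ 3 * z) * (x * y ^ n) := by simp only [mul_assoc]
    _ = z * (x ^ 3 * x * y ^ n) := by rw [hc]; simp only [mul_assoc]
    _ = 0 := by rw [← pow_succ, g.x4, zero_mul, mul_zero]

lemma WRels.top_z {S : Type*} [Ring S] {z x y : S} (g : WRels z x y) (n : ℕ) :
    z * (x ^ 3 * y ^ n) * z = 0 := by
  have hc : x ^ 3 * z = z * x ^ 3 := (Commute.pow_left g.xz 3)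
  have hc' : y ^ n * z = z * y ^ n := (Commute.pow_left g.yz n)
  rw [mul_assoc, mul_assoc, hc', ← mul_assoc (x ^ 3), hc, mul_assoc z, ← mul_assoc, g.zz,
    zero_mul]

omit [CharP k 2] in
theorem model_top {R S : Type*} [Ring R] [Ring S] [Algebra k R] [Algebra k S]
    {a b p q : R} {z x y : S} (g : WRels z x y) :
    (a ⊗ₜ[k] (1 : S)) ^ 3 * ((b ⊗ₜ[k] (1 : S)) ^ 3 * (((1 : R) ⊗ₜ[k] z) ^ 1 *
      (((1 : R) ⊗ₜ[k] x + p ⊗ₜ[k] z) ^ 3 * ((1 : R) ⊗ₜ[k] y + p ⊗ₜ[k] x + q ⊗ₜ[k] z) ^ 7))) =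
    (a ^ 3 * b ^ 3) ⊗ₜ[k] (z * (x ^ 3 * y ^ 7)) := by
  have e1 : ((1 : R) ⊗ₜ[k] z) * ((1 : R) ⊗ₜ[k] x + p ⊗ₜ[k] z) ^ 3 =
      (1 : R) ⊗ₜ[k] (z * (x ^ 3 * y ^ 0)) := by
    simp only [pow_succ, pow_zero, one_mul, mul_one, mul_add, add_mul, mul_assoc,
      Algebra.TensorProduct.tmul_mul_tmul, g.zz, TensorProduct.tmul_zero, add_zero, zero_add]
    have h1 : z * (x * (x * z)) = 0 := by
      rw [g.xz, ← mul_assoc x, g.xz, mul_assoc z x, ← mul_assoc, g.zz, zero_mul]
    have h2 : z * (x * (z * x)) = 0 := by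
      rw [← mul_assoc x, g.xz, mul_assoc z x, ← mul_assoc, g.zz, zero_mul]
    have h3 : z * (z * (x * x)) = 0 := by rw [← mul_assoc, g.zz, zero_mul]
    have h4 : ∀ w : S, z * (z * w) = 0 := fun w => by rw [← mul_assoc, g.zz, zero_mul]
    have h5 : z * (x * (z * z)) = 0 := by rw [g.zz, mul_zero, mul_zero]
    simp only [h1, h2, h3, h4, h5, mul_zero, TensorProduct.tmul_zero, add_zero, zero_add]
  have e2 : ∀ n : ℕ, ((1 : R) ⊗ₜ[k] (z * (x ^ 3 * y ^ 0))) *
      ((1 : R) ⊗ₜ[k] y + p ⊗ₜ[k] x + q ⊗ₜ[k] z) ^ n =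
      (1 : R) ⊗ₜ[k] (z * (x ^ 3 * y ^ n)) := by
    intro n
    induction n with
    | zero => simp
    | succ n ih =>
      rw [pow_succ _ n, ← mul_assoc, ih]
      simp only [mul_add, Algebra.TensorProduct.tmul_mul_tmul, one_mul, g.top_x, g.top_z,
        TensorProduct.tmul_zero, add_zero]
      rw [pow_succ y n]
      simp only [mul_assoc]
  rw [pow_one, ← mul_assoc ((1 : R) ⊗ₜ[k] z), e1, e2]
  simp only [Algebra.TensorProduct.tmul_mul_tmul, Algebra.TensorProduct.tmul_pow, one_pow,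
    one_mul, mul_one]

end model

section nonzero

variable (k : Type u) [Field k]

lemma tmul_ne_zero {V W : Type*} [AddCommGroup V] [AddCommGroup W] [Module k V] [Module k W]
    {v : V} {w : W} (hv : v ≠ 0) (hw : w ≠ 0) : v ⊗ₜ[k] w ≠ 0 := by
  obtain ⟨f, hf⟩ : ∃ f : V →ₗ[k] k, f v ≠ 0 := by
    by_contra h
    push Not at h
    exact hv ((Module.forall_dual_apply_eq_zero_iff k v).1 h)
  intro h
  have h1 := congrArg (fun t => TensorProduct.lid k W (f.rTensor W t)) h
  simp only [LinearMap.rTensor_tmul, TensorProduct.lid_tmul, map_zero] at h1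
  rcases smul_eq_zero.1 h1 with h2 | h2
  · exact hf h2
  · exact hw h2

variable [CharP k 2]

lemma Lam_ne_zero : Lam k ≠ 0 := by
  intro h
  have h1 := congrArg (lift (k := k) (model_rels k (vRels k) (wRels k))) h
  rw [map_zero] at h1
  simp only [Lam, mon, map_mul, map_pow, lift_a, lift_b, lift_z, lift_x, lift_y] at h1
  rw [model_top k (wRels k)] at h1
  revert h1
  apply tmul_ne_zero
  · simp only [Algebra.TensorProduct.tmul_pow, one_pow, Algebra.TensorProduct.tmul_mul_tmul,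
      one_mul, mul_one]
    have := mPPP k
    rw [← pow_two, ← pow_succ'] at this
    exact tmul_ne_zero k this this
  · have e : ∀ n : ℕ, ((1 : Mt k) ⊗ₜ[k] ze k) * (1 ⊗ₜ et k + (mP k * mD k) ⊗ₜ ze k) ^ n =
        1 ⊗ₜ (ze k * et k ^ n) := by
      intro n
      induction n with
      | zero => simp
      | succ n ih =>
        rw [pow_succ _ n, ← mul_assoc, ih, mul_add]
        simp only [Algebra.TensorProduct.tmul_mul_tmul, one_mul, mul_one]
        have : ze k * et k ^ n * ze k = 0 := by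
          rw [mul_comm, ← mul_assoc, ze_mul, zero_mul]
        rw [this, TensorProduct.tmul_zero, add_zero, pow_succ (et k) n, mul_assoc]
    have hc : ((1 : Mt k) ⊗ₜ[k] ze k) * (mP k ⊗ₜ[k] (1 : Cr k)) ^ 3 =
        (mP k ⊗ₜ[k] (1 : Cr k)) ^ 3 * ((1 : Mt k) ⊗ₜ[k] ze k) := by
      simp only [Algebra.TensorProduct.tmul_pow, one_pow, Algebra.TensorProduct.tmul_mul_tmul,
        one_mul, mul_one]
    rw [← mul_assoc, hc, mul_assoc, e]
    simp only [Algebra.TensorProduct.tmul_pow, one_pow, Algebra.TensorProduct.tmul_mul_tmul,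
      one_mul, mul_one]
    have := mPPP k
    rw [← pow_two, ← pow_succ'] at this
    exact tmul_ne_zero k this (ze_et k)

end nonzero

end Pool.Agent.LocHopf
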